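import Pool.Agent.helper78.NLS.Spec

/-!
# Project nls: (MP_70a088_an), module ERR: the error identity
-/

set_option autoImplicit false

open Complex Metric Set Filter Topology MeasureTheory MPS
open Pool.Agent.helper98.ILF Pool.Agent.helper16.Multibrot

noncomputable section

namespace NLS

theorem ERR_om_pow (n : ℕ) (hn : n ≠ 0) : om n ^ n = 1 := by
  unfold om
  rw [← Complex.exp_nat_mul]
  have : (n : ℂ) * (2 * Real.pi * Complex.I / n) = 2 * Real.pi * Complex.I := by
    have : (n : ℂ) ≠ 0 := Nat.cast_ne_zero.2 hn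
    field_simp
  rw [this, Complex.exp_two_pi_mul_I]

theorem ERR (hALG : ALG_stmt) (hPSP : PSP_stmt) (hPCB : PCB_stmt) (hLBZ : LBZ_stmt) (hREP : REP_stmt) (hISO : ISO_stmt) :
    ERR_stmt := by
  intro n c R m hn hc hR hSc hSy hm1
  have hn1 : 1 ≤ n := by omega
  have hn0 : n ≠ 0 := by omega
  have hR0 : 0 < R := by linarith
  obtain ⟨A1, A2, A3, A4, A5, A6, A7, A8, A9, A10⟩ := hALG
  obtain ⟨P1, P2, P3⟩ := hPSP n R m hn1 hR0 hSc hm1
  obtain ⟨B1, B2, B3, B4, B5, B6⟩ := hPCB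
  obtain ⟨L1, L2, L3⟩ := hLBZ n R m hR0 hSc hm1
  -- smoothness
  have hcomp : ∀ j, Sm (fun z => ps m j (ff n c z)) := fun j => (A3 n c (ps m j) (P1 j).1).1
  have hsm : ∀ j, Sm (gg n c m j) := fun j => (A1 _ _ (hcomp j) (L1 j)).2.1
  have h0 : ∀ z, gg n c m 0 z = c := by
    intro z
    unfold gg PP
    rw [B4]
    show (ff n c z) - z ^ n = c
    unfold ff
    ring
  -- the identity
  have hid : ∀ j z, db (gg n c m (j + 1)) z = de n c m j z + m z * dd (gg n c m j) z := by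
    intro j z
    have e1 : db (gg n c m (j + 1)) z = db (fun z => ps m (j + 1) (ff n c z)) z - db (PP n m (j + 1)) z :=
      ((A1 _ _ (hcomp (j + 1)) (L1 (j + 1))).2.2.2.2.1 z).1
    have e2 : dd (gg n c m j) z = dd (fun z => ps m j (ff n c z)) z - dd (PP n m j) z :=
      ((A1 _ _ (hcomp j) (L1 j)).2.2.2.2.1 z).2
    rw [e1, e2, (A3 n c (ps m (j + 1)) (P1 (j + 1)).1).2.1 z, (A3 n c (ps m j) (P1 j).1).2.2 z, L3 j z,
      (P1 j).2.2.2.1 (ff n c z)]
    unfold de hp
    ring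
  have hne : ∀ j z, db (gg n c m j) z ≠ 0 → m z ≠ 0 ∨ m (ff n c z) ≠ 0 := by
    intro j z hz
    by_contra hcon
    push Not at hcon
    apply hz
    cases j with
    | zero =>
      have e : gg n c m 0 = fun _ => c := by
        funext z; exact h0 z
      rw [e]
      exact ((A7 c).2 z).2
    | succ j =>
      rw [hid j z]
      unfold de
      rw [hcon.1, hcon.2]
      ring
  have hffR : ∀ z : ℂ, R ≤ ‖z‖ → R ≤ ‖ff n c z‖ := by
    intro z hz
    have h1 : ‖z ^ n‖ - ‖c‖ ≤ ‖z ^ n + c‖ := by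
      have := norm_sub_norm_le (z ^ n) (-c)
      rw [norm_neg, sub_neg_eq_add] at this
      exact this
    have h2 : ‖z‖ ^ 2 ≤ ‖z ^ n‖ := by
      rw [norm_pow]
      exact pow_le_pow_right₀ (by linarith) hn
    unfold ff
    nlinarith [norm_nonneg z]
  have hsupp : ∀ j, ∀ z, R ≤ ‖z‖ → db (gg n c m j) z = 0 := by
    intro j z hz
    by_contra hcon
    rcases hne j z hcon with h | h
    · exact h (hSc.supp z hz)
    · exact h (hSc.supp _ (hffR z hz))
  have hSc2 : ∀ j, Sc R (db (gg n c m j)) := fun j => ⟨(A2 _ (hsm j)).1, hsupp j⟩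
  -- bounds for ps
  have hbd : ∀ i, ∃ C : ℝ, 0 ≤ C ∧ ∀ z, ‖ps m (i + 1) z‖ ≤ C := by
    intro i
    obtain ⟨C, hC0, hC⟩ := (P1 i).2.2.2.2.2
    refine ⟨C, hC0, fun z => (hC z).trans ?_⟩
    apply div_le_self hC0
    linarith [norm_nonneg z]
  choose Cf hCf0 hCf using hbd
  have hgrow : ∀ j, ∃ C : ℝ, ∀ z, ‖gg n c m j z‖ ≤ C * (1 + ‖z‖) ^ (n - 1) := by
    intro j
    cases j with
    | zero =>
      refine ⟨‖c‖, fun z => ?_⟩
      rw [h0]
      have h1 : 1 ≤ (1 + ‖z‖) ^ (n - 1) := one_le_pow₀ (by linarith [norm_nonneg z])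
      nlinarith [norm_nonneg c]
    | succ j =>
      set M : ℝ := ∑ i ∈ Finset.range (j + 1), Cf i with hM
      have hM0 : 0 ≤ M := Finset.sum_nonneg (fun i _ => hCf0 i)
      have hMi : ∀ i, 1 ≤ i → i ≤ j + 1 → ∀ z, ‖ps m i z‖ ≤ M := by
        intro i hi1 hi2 z
        obtain ⟨i', rfl⟩ : ∃ i', i = i' + 1 := ⟨i - 1, by omega⟩
        refine (hCf i' z).trans ?_
        exact Finset.single_le_sum (f := Cf) (fun i _ => hCf0 i) (Finset.mem_range.2 (by omega))
      refine ⟨M + (1 + M) ^ (n - 1) * M * (((j + 1 : ℕ) : ℝ) + 1) ^ n, fun z => ?_⟩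
      have h1 : 1 ≤ (1 + ‖z‖) ^ (n - 1) := one_le_pow₀ (by linarith [norm_nonneg z])
      have h2 : ‖ps m (j + 1) (ff n c z)‖ ≤ M := hMi (j + 1) (by omega) le_rfl _
      have h3 : ‖PP n m (j + 1) z‖ ≤ (‖z‖ + M) ^ (n - 1) * M * (((j + 1 : ℕ) : ℝ) + 1) ^ n := by
        unfold PP
        apply B3 _ ‖z‖ M n (j + 1) hM0 (norm_nonneg z)
        · show ‖z‖ ≤ ‖z‖
          exact le_rfl
        · intro i hi1 hi2
          exact hMi i hi1 hi2 z
        · omega
        · omega
      have h4 : (‖z‖ + M) ^ (n - 1) ≤ (1 + M) ^ (n - 1) * (1 + ‖z‖) ^ (n - 1) := by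
        rw [← mul_pow]
        apply pow_le_pow_left₀ (by positivity)
        nlinarith [norm_nonneg z]
      have h5 : (‖z‖ + M) ^ (n - 1) * M * (((j + 1 : ℕ) : ℝ) + 1) ^ n ≤
          ((1 + M) ^ (n - 1) * (1 + ‖z‖) ^ (n - 1)) * M * (((j + 1 : ℕ) : ℝ) + 1) ^ n := by
        apply mul_le_mul_of_nonneg_right _ (by positivity)
        exact mul_le_mul_of_nonneg_right h4 hM0
      have h6 : M ≤ M * (1 + ‖z‖) ^ (n - 1) := by nlinarith
      calc ‖gg n c m (j + 1) z‖ ≤ ‖ps m (j + 1) (ff n c z)‖ + ‖PP n m (j + 1) z‖ := norm_sub_le _ _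
        _ ≤ M * (1 + ‖z‖) ^ (n - 1) + ((1 + M) ^ (n - 1) * (1 + ‖z‖) ^ (n - 1)) * M * (((j + 1 : ℕ) : ℝ) + 1) ^ n := by
            linarith
        _ = (M + (1 + M) ^ (n - 1) * M * (((j + 1 : ℕ) : ℝ) + 1) ^ n) * (1 + ‖z‖) ^ (n - 1) := by ring
  have hsym : ∀ j z, gg n c m j (om n * z) = gg n c m j z := by
    intro j z
    have e1 : ff n c (om n * z) = ff n c z := by
      unfold ff
      rw [mul_pow, ERR_om_pow n hn0, one_mul]
    unfold gg
    rw [e1]
    congr 1
    unfold PP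
    have e2 : (fun i => ps m i (om n * z)) = fun i => om n * ps m i z := by
      funext i
      exact P3 hSy i z
    rw [e2, B2, ERR_om_pow n hn0, one_mul]
  have hrep : ∀ j, ∃ a : ℂ, ∀ z, gg n c m j z = a + Ct (db (gg n c m j)) z := by
    intro j
    obtain ⟨C, hC⟩ := hgrow j
    exact hREP n R C (gg n c m j) hn1 hR0 (hsm j) (hsupp j) hC (hsym j)
  refine ⟨fun j => ⟨hSc2 j, hsm j⟩, h0, hid, hne, hrep, ?_⟩
  intro j
  obtain ⟨I1, I2, I3⟩ := hISO R (db (gg n c m j)) hR0 (hSc2 j)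
  obtain ⟨a, ha⟩ := hrep j
  have hCtsm : Sm (Ct (db (gg n c m j))) := by
    have e : Ct (db (gg n c m j)) = fun z => gg n c m j z - a := by
      funext z
      rw [ha z]; ring
    rw [e]
    exact (A1 _ _ (hsm j) (A7 a).1).2.1
  have hddg : ∀ z, dd (gg n c m j) z = dd (Ct (db (gg n c m j))) z := by
    intro z
    have e : gg n c m j = fun z => (fun _ => a) z + Ct (db (gg n c m j)) z := by
      funext z
      exact ha z
    have h1 := ((A1 _ _ (A7 a).1 hCtsm).2.2.2.1 z).2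
    rw [((A7 a).2 z).1, zero_add] at h1
    have h2 : dd (gg n c m j) z = dd (fun z => (fun _ => a) z + Ct (db (gg n c m j)) z) z := by
      conv_lhs => rw [e]
    rw [h2]
    exact h1
  have hdeq : db (gg n c m (j + 1)) = (de n c m j) + (fun z => m z * dd (gg n c m j) z) := by
    funext z
    exact hid j z
  have hcont_gg : Continuous (dd (gg n c m j)) := ((A2 _ (hsm j)).2.1).continuous
  have hcont_m : Continuous m := hSc.sm.continuous
  have hffc : Continuous (ff n c) := by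
    unfold ff; fun_prop
  have hfdc : Continuous (fd n) := by
    unfold fd; fun_prop
  have hcont_de : Continuous (de n c m j) := by
    have h1 : Continuous (dd (ps m j)) := ((A2 _ (P1 j).1).2.1).continuous
    unfold de
    exact (((hcont_m.comp hffc).mul (Complex.continuous_conj.comp hfdc)).sub (hcont_m.mul hfdc)).mul (h1.comp hffc)
  rw [hdeq]
  refine (eLpNorm_add_le hcont_de.aestronglyMeasurable (hcont_m.mul hcont_gg).aestronglyMeasurable (by norm_num)).trans ?_
  gcongr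
  calc eLpNorm (fun z => m z * dd (gg n c m j) z) 2 volume ≤ eLpNorm (dd (gg n c m j)) 2 volume := by
        apply eLpNorm_mono
        intro z
        rw [norm_mul]
        have := hm1 z
        nlinarith [norm_nonneg (dd (gg n c m j) z)]
    _ = eLpNorm (dd (Ct (db (gg n c m j)))) 2 volume := by
        congr 1
        funext z
        exact hddg z
    _ = eLpNorm (db (gg n c m j)) 2 volume := I3

end NLS
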